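import Mathlib
import Pool.Agent.TH92.SymCol.LowerFinal

set_option autoImplicit false

/-!
# MP_3cf955_co: `c ≥ 0.768` for the constant `c = lim r² ms([0,1], r)`

The definition of `ms` is in `Pool.Agent.TH92.SymCol.Defs`.
-/

namespace Pool.Agent.Results.MP_3cf955_co.LowerBound

open Pool.Agent.TH92.SymCol Filter Topology

/-- `ms([0,1], r) ≥ 0.768 / r²` for every `r ≥ 1`, and so `c ≥ 0.768` for
`c = lim r² ms([0,1], r)`. -/
theorem result :
    (∀ r : ℕ, 0 < r → (768 : ℝ) / 1000 ≤ (r : ℝ) ^ 2 * ms r) ∧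
    (∀ c : ℝ, Tendsto (fun r : ℕ => (r : ℝ) ^ 2 * ms r) atTop (𝓝 c) → 768 / 1000 ≤ c) := by
  refine ⟨ms_ge_768, fun c hc => ?_⟩
  refine ge_of_tendsto hc ?_
  filter_upwards [eventually_gt_atTop 0] with r hr
  exact ms_ge_768 r hr

end Pool.Agent.Results.MP_3cf955_co.LowerBound
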