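import Mathlib
import Pool.Agent.TH92.SymCol.Table

set_option autoImplicit false

/-!
# MP_3cf955_co: `c ≤ 0.8155` for the constant `c = lim r² ms([0,1], r)`

The definition of `ms` is in `Pool.Agent.TH92.SymCol.Defs`.
-/

namespace Pool.Agent.Results.MP_3cf955_co.UpperBound

open Pool.Agent.TH92.SymCol Filter Topology

/-- `ms([0,1], r) ≤ 0.8155 / r²` for all large `r`, and so `c ≤ 0.8155` for
`c = lim r² ms([0,1], r)`. -/
theorem result :
    (∀ᶠ r : ℕ in atTop, (r : ℝ) ^ 2 * ms r ≤ 8155 / 10000) ∧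
    (∀ c : ℝ, Tendsto (fun r : ℕ => (r : ℝ) ^ 2 * ms r) atTop (𝓝 c) → c ≤ 8155 / 10000) := by
  have h2 : ∀ᶠ r : ℕ in atTop, (r : ℝ) ^ 2 * ms r ≤ 8155 / 10000 := by
    filter_upwards [eventually_le isTable (1 / 100000) (by norm_num)] with r hr
    norm_num at hr ⊢
    linarith
  exact ⟨h2, fun c hc => le_of_tendsto hc h2⟩

end Pool.Agent.Results.MP_3cf955_co.UpperBound
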